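import Mathlib
import Pool.Agent.R499.FranelPower

/-!
# `4n` divides `∑_{k<n} (-1)^k (3k+2) f_k^{(2r+1)}` for `n > 1`
-/

namespace Pool.Agent.Results.MP_97e2c3_nt.ModFourN

open Finset

/-- `f_n^{(r)} = ∑_{k=0}^{n} C(n,k)^r`. -/
def f (r n : ℕ) : ℕ := ∑ k ∈ range (n + 1), (n.choose k) ^ r

/-- For all `r ≥ 0` and all `n > 1`, `4 n` divides
`∑_{k=0}^{n-1} (-1)^k (3k+2) f_k^{(2r+1)}`. -/
theorem result (r n : ℕ) (hn : 1 < n) :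
    (4 * (n : ℤ)) ∣ ∑ k ∈ range n, (-1) ^ k * (3 * (k : ℤ) + 2) * (f (2 * r + 1) k : ℤ) :=
  Pool.Agent.R499.FranelPower.four_n r n hn

end Pool.Agent.Results.MP_97e2c3_nt.ModFourN
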